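import Pool.Agent.W312.TP.Stm2
import Pool.Agent.W312.TP.Asm

/-!
# Certificates for path graphs exist
-/

set_option autoImplicit false

namespace Pool.Agent.W428.TP.PGCA

open Pool.Agent.W312.TP Pool.Agent.NPC Pool.Agent.H673R2 Pool.Agent.H673R2.Ts

section tree

variable {V : Type} {T : SimpleGraph V}

/-- A path given by its vertices. -/
def Pth (T : SimpleGraph V) (p : ℕ → V) (L : ℕ) : Prop :=
  (∀ j < L, T.Adj (p j) (p (j + 1))) ∧ (∀ j, j + 2 ≤ L → p j ≠ p (j + 2))

theorem pth_of_isPath {x y : V} (w : T.Walk x y) (hw : w.IsPath) : Pth T w.getVert w.length := by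
  refine ⟨fun j hj => w.adj_getVert_succ hj, fun j hj h => ?_⟩
  have := hw.getVert_injOn (show j ∈ {i | i ≤ w.length} by simp; omega)
    (show j + 2 ∈ {i | i ≤ w.length} by simpa using hj) h
  omega

theorem dist_pth (h : PROJ) (hT : T.IsTree) {p : ℕ → V} {L : ℕ} (hp : Pth T p L) {i j : ℕ}
    (hij : i ≤ j) (hj : j ≤ L) : T.dist (p i) (p j) = j - i := by
  obtain ⟨k, hk, h1⟩ := h V T hT p L hp.1 hp.2 (p i)
  have h2 := h1 i (hij.trans hj)
  have h3 := h1 j hj
  have h4 : T.dist (p i) (p i) = 0 := SimpleGraph.dist_self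
  rw [h4] at h2
  have h5 : k = i := by
    rcases le_total i k with h5 | h5
    · have := h2.1 h5
      omega
    · have := h2.2 h5
      omega
  subst h5
  have := h3.2 hij
  omega

theorem between (h : PROJ) (hT : T.IsTree) {p : ℕ → V} {L : ℕ} (hp : Pth T p L) {i j : ℕ}
    (hij : i ≤ j) (hj : j ≤ L) {s : V}
    (hs : T.dist (p i) s + T.dist s (p j) = T.dist (p i) (p j)) :
    ∃ m, i ≤ m ∧ m ≤ j ∧ s = p m := by
  obtain ⟨k, hk, h1⟩ := h V T hT p L hp.1 hp.2 s
  have h2 := h1 i (hij.trans hj)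
  have h3 := h1 j hj
  rw [dist_pth h hT hp hij hj, SimpleGraph.dist_comm] at hs
  have h4 : T.dist s (p k) = 0 ∧ i ≤ k ∧ k ≤ j := by
    rcases le_total i k with h5 | h5 <;> rcases le_total j k with h6 | h6
    · have a := h2.1 h5
      have b := h3.1 h6
      omega
    · have a := h2.1 h5
      have b := h3.2 h6
      omega
    · have a := h2.2 h5
      have b := h3.1 h6
      omega
    · have a := h2.2 h5
      have b := h3.2 h6
      omega
  exact ⟨k, h4.2.1, h4.2.2, eq_of_dist_eq_zero hT h4.1⟩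

/-- `x` is an ancestor of `y` in the tree with root `ρ`. -/
def Anc (T : SimpleGraph V) (ρ x y : V) : Prop := T.dist ρ x + T.dist x y = T.dist ρ y

theorem anc_trans (hT : T.IsTree) {ρ x y z : V} (h1 : Anc T ρ x y) (h2 : Anc T ρ y z) :
    Anc T ρ x z := by
  unfold Anc at *
  have a := hT.connected.dist_triangle (u := x) (v := y) (w := z)
  have b := hT.connected.dist_triangle (u := ρ) (v := x) (w := z)
  omega

theorem anc_eq (hT : T.IsTree) {ρ x y : V} (h1 : Anc T ρ x y) (h2 : T.dist ρ y ≤ T.dist ρ x) :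
    x = y := by
  unfold Anc at *
  exact eq_of_dist_eq_zero hT (by omega)

theorem anc_root {ρ y : V} : Anc T ρ ρ y := by
  unfold Anc
  rw [SimpleGraph.dist_self, zero_add]

theorem anc_total (h : PROJ) (hT : T.IsTree) {ρ x y z : V} (h1 : Anc T ρ x z) (h2 : Anc T ρ y z)
    (h3 : T.dist ρ x ≤ T.dist ρ y) : Anc T ρ x y := by
  obtain ⟨w, hw⟩ := hT.connected.exists_walk_length_eq_dist ρ z
  have hp := pth_of_isPath w (SimpleGraph.Walk.isPath_of_length_eq_dist _ hw)
  have e0 : w.getVert 0 = ρ := w.getVert_zero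
  have eL : w.getVert w.length = z := w.getVert_length
  obtain ⟨i, -, hi, rfl⟩ := between h hT hp (Nat.zero_le _) le_rfl (s := x)
    (by rw [e0, eL]; exact h1)
  obtain ⟨j, -, hj, rfl⟩ := between h hT hp (Nat.zero_le _) le_rfl (s := y)
    (by rw [e0, eL]; exact h2)
  have a := dist_pth h hT hp (Nat.zero_le i) hi
  have b := dist_pth h hT hp (Nat.zero_le j) hj
  rw [e0] at a b
  unfold Anc
  rw [a, b] at h3
  have c := dist_pth h hT hp (i := i) (j := j) (by omega) hj
  omega

/-- The index of the projection of `ρ`. -/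
def Top (T : SimpleGraph V) (ρ : V) (p : ℕ → V) (L i : ℕ) : Prop :=
  i ≤ L ∧ ∀ j ≤ L, (j ≤ i → T.dist ρ (p j) = T.dist ρ (p i) + (i - j)) ∧
    (i ≤ j → T.dist ρ (p j) = T.dist ρ (p i) + (j - i))

theorem anc_path (h : PROJ) (hT : T.IsTree) {ρ : V} {p : ℕ → V} {L i : ℕ} (hp : Pth T p L)
    (hi : Top T ρ p L i) {j l : ℕ} (hjl : (i ≤ j ∧ j ≤ l ∧ l ≤ L) ∨ (l ≤ j ∧ j ≤ i)) :
    Anc T ρ (p j) (p l) := by
  have hiL := hi.1
  unfold Anc
  rcases hjl with ⟨a, b, c⟩ | ⟨a, b⟩
  · have h1 := (hi.2 j (b.trans c)).2 a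
    have h2 := (hi.2 l c).2 (a.trans b)
    have h3 := dist_pth h hT hp b c
    omega
  · have h1 := (hi.2 j (b.trans hiL)).1 b
    have h2 := (hi.2 l (a.trans (b.trans hiL))).1 (a.trans b)
    have h3 := dist_pth h hT hp a (b.trans hiL)
    rw [SimpleGraph.dist_comm] at h3
    omega

theorem anc_top (h : PROJ) (hT : T.IsTree) {ρ : V} {p : ℕ → V} {L i : ℕ} (hp : Pth T p L)
    (hi : Top T ρ p L i) {l : ℕ} (hl : l ≤ L) : Anc T ρ (p i) (p l) := by
  rcases le_total i l with h1 | h1
  · exact anc_path h hT hp hi (Or.inl ⟨le_rfl, h1, hl⟩)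
  · exact anc_path h hT hp hi (Or.inr ⟨h1, le_rfl⟩)

/-- A vertex between two ancestors on a path is on the path. -/
theorem anc_mid (h : PROJ) (hT : T.IsTree) {ρ : V} {p : ℕ → V} {L : ℕ} (hp : Pth T p L)
    {j l : ℕ} (hj : j ≤ L) (hl : l ≤ L) {s : V} (h1 : Anc T ρ (p j) s)
    (h2 : Anc T ρ s (p l)) : ∃ m, ((j ≤ m ∧ m ≤ l) ∨ (l ≤ m ∧ m ≤ j)) ∧ s = p m := by
  have h3 : T.dist (p j) s + T.dist s (p l) = T.dist (p j) (p l) := by
    have h3 := anc_trans hT h1 h2
    unfold Anc at h1 h2 h3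
    omega
  rcases le_total j l with h4 | h4
  · obtain ⟨m, a, b, c⟩ := between h hT hp h4 hl h3
    exact ⟨m, Or.inl ⟨a, b⟩, c⟩
  · obtain ⟨m, a, b, c⟩ := between h hT hp h4 hj (s := s) (by
      rw [SimpleGraph.dist_comm (u := p l) (v := s), SimpleGraph.dist_comm (u := s) (v := p j),
        SimpleGraph.dist_comm (u := p l) (v := p j)]
      omega)
    exact ⟨m, Or.inr ⟨a, b⟩, c⟩

/-- Two paths which meet contain the top of one of them. -/
theorem meet (h : PROJ) (hT : T.IsTree) {ρ : V} {p q : ℕ → V} {L M i k : ℕ} (hp : Pth T p L)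
    (hq : Pth T q M) (hi : Top T ρ p L i) (hk : Top T ρ q M k) {j l : ℕ} (hj : j ≤ L) (hl : l ≤ M)
    (he : p j = q l) (hle : T.dist ρ (p i) ≤ T.dist ρ (q k)) : ∃ m ≤ L, q k = p m := by
  have h1 := anc_top h hT hp hi hj
  have h2 := anc_top h hT hq hk hl
  rw [← he] at h2
  have h3 := anc_total h hT h1 h2 hle
  obtain ⟨m, hm, e⟩ := anc_mid h hT hp hi.1 hj h3 h2
  have := hi.1
  exact ⟨m, by omega, e⟩

/-- The new parent of `s`. -/
theorem exists_par (ρ : V) (S : Finset V) (hρ : ρ ∈ S) :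
    ∃ par : V → V, ∀ s ∈ S, s ≠ ρ → par s ∈ S ∧ Anc T ρ (par s) s ∧ par s ≠ s ∧
      ∀ s' ∈ S, Anc T ρ s' s → s' ≠ s → T.dist ρ s' ≤ T.dist ρ (par s) := by
  classical
  have h1 : ∀ s : V, ∃ r : V, s ∈ S → s ≠ ρ → r ∈ S ∧ Anc T ρ r s ∧ r ≠ s ∧
      ∀ s' ∈ S, Anc T ρ s' s → s' ≠ s → T.dist ρ s' ≤ T.dist ρ r := by
    intro s
    by_cases hs : s ≠ ρ
    · obtain ⟨r, hr, hm⟩ := Finset.exists_max_image (S.filter fun s' => Anc T ρ s' s ∧ s' ≠ s)
        (fun x => T.dist ρ x) ⟨ρ, by
          rw [Finset.mem_filter]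
          exact ⟨hρ, anc_root, hs.symm⟩⟩
      rw [Finset.mem_filter] at hr
      refine ⟨r, fun _ _ => ⟨hr.1, hr.2.1, hr.2.2, fun s' hs' h1 h2 => hm s' ?_⟩⟩
      rw [Finset.mem_filter]
      exact ⟨hs', h1, h2⟩
    · exact ⟨s, fun _ h => absurd h hs⟩
  choose par hpar using h1
  exact ⟨par, fun s h1 h2 => hpar s h1 h2⟩

open Classical in
/-- The new level of `s`. -/
noncomputable def level (T : SimpleGraph V) (ρ : V) (S : Finset V) (s : V) : ℕ :=
  (S.filter fun s' => Anc T ρ s' s ∧ s' ≠ s).card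

theorem level_le {ρ : V} {S : Finset V} {s : V} : level T ρ S s ≤ S.card := by
  classical
  unfold level
  exact Finset.card_le_card (Finset.filter_subset _ _)

theorem level_lt (hT : T.IsTree) {ρ : V} {S : Finset V} {s r : V} (hr : r ∈ S)
    (h1 : Anc T ρ r s) (h2 : r ≠ s) : level T ρ S r < level T ρ S s := by
  classical
  unfold level
  apply Finset.card_lt_card
  rw [Finset.ssubset_iff_of_subset]
  · exact ⟨r, by rw [Finset.mem_filter]; exact ⟨hr, h1, h2⟩, by
      rw [Finset.mem_filter]; exact fun h => h.2.2 rfl⟩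
  · intro x hx
    rw [Finset.mem_filter] at hx ⊢
    refine ⟨hx.1, anc_trans hT hx.2.1 h1, ?_⟩
    rintro rfl
    exact h2 (anc_eq hT h1 (by have := hx.2.1; unfold Anc at this; omega))

/-- Consecutive elements of `S` on a path are parent and child. -/
theorem consec (h : PROJ) (hT : T.IsTree) {ρ : V} {S : Finset V} {par : V → V}
    (hpar : ∀ s ∈ S, s ≠ ρ → par s ∈ S ∧ Anc T ρ (par s) s ∧ par s ≠ s ∧
      ∀ s' ∈ S, Anc T ρ s' s → s' ≠ s → T.dist ρ s' ≤ T.dist ρ (par s))
    {p : ℕ → V} {L i : ℕ} (hp : Pth T p L) (hi : Top T ρ p L i) (hiS : p i ∈ S)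
    {j l : ℕ} (hj : j < l) (hl : l ≤ L) (hjS : p j ∈ S) (hlS : p l ∈ S)
    (hm : ∀ m, j < m → m < l → p m ∉ S) :
    (p j ≠ ρ ∧ p l = par (p j)) ∨ (p l ≠ ρ ∧ p j = par (p l)) := by
  have hne : T.dist (p j) (p l) = l - j := dist_pth h hT hp hj.le hl
  have hne' : p j ≠ p l := by
    intro h1
    rw [h1, SimpleGraph.dist_self] at hne
    omega
  have key : ∀ a b : ℕ, a ≤ L → b ≤ L → p a ∈ S → p b ∈ S → p a ≠ p b →
      (∀ m, ((a < m ∧ m < b) ∨ (b < m ∧ m < a)) → p m ∉ S) → Anc T ρ (p a) (p b) →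
      p b ≠ ρ ∧ p a = par (p b) := by
    intro a b ha hb haS hbS hab hmm hanc
    have hbρ : p b ≠ ρ := by
      intro h1
      apply hab
      exact anc_eq hT hanc (by rw [h1, SimpleGraph.dist_self]; exact Nat.zero_le _)
    obtain ⟨h1, h2, h3, h4⟩ := hpar _ hbS hbρ
    have h5 := anc_total h hT hanc h2 (h4 _ haS hanc hab)
    obtain ⟨m, h6, h7⟩ := anc_mid h hT hp ha hb h5 h2
    refine ⟨hbρ, ?_⟩
    by_cases hma : m = a
    · rw [← hma, ← h7]
    · exfalso
      have hmb : m ≠ b := by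
        rintro rfl
        exact h3 h7
      exact hmm m (by omega) (h7 ▸ h1)
  by_cases hil : l ≤ i
  · left
    exact key l j hl (by omega) hlS hjS hne'.symm (fun m hm' => hm m (by omega) (by omega))
      (anc_path h hT hp hi (Or.inr ⟨hj.le, hil⟩))
  · right
    have hij : i ≤ j := by
      by_contra h1
      exact hm i (by omega) (by omega) hiS
    exact key j l (by omega) hl hjS hlS hne' (fun m hm' => hm m (by omega) (by omega))
      (anc_path h hT hp hi (Or.inl ⟨hij, hj.le, hl⟩))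

end tree

/-- Consecutive elements of a filtered list. -/
theorem filter_chain {α : Type} (P : α → Bool) (R : α → α → Prop) : ∀ (l : List α),
    (∀ i j (hi : i < l.length) (hj : j < l.length), i < j → P l[i] = true → P l[j] = true →
      (∀ m (hm : m < l.length), i < m → m < j → P l[m] = false) → R l[i] l[j]) →
    (l.filter P).IsChain R
  | [], _ => by simp
  | a :: t, h => by
    have ih : (t.filter P).IsChain R := by
      apply filter_chain P R t
      intro i j hi hj hij h1 h2 h3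
      refine h (i + 1) (j + 1) (by simpa using hi) (by simpa using hj) (by omega) (by simpa using h1)
        (by simpa using h2) ?_
      intro m hm h4 h5
      obtain ⟨m, rfl⟩ : ∃ m', m = m' + 1 := ⟨m - 1, by omega⟩
      have := h3 m (by simpa using hm) (by omega) (by omega)
      simpa using this
    rw [List.filter_cons]
    split_ifs with ha
    · rw [List.isChain_cons]
      refine ⟨?_, ih⟩
      intro y hy
      rw [List.head?_filter, Option.mem_def, List.find?_eq_some_iff_getElem] at hy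
      obtain ⟨h1, i, hi, h2, h3⟩ := hy
      have := h 0 (i + 1) (by simp) (by simpa using hi) (by omega) (by simpa using ha)
        (by simpa [h2] using h1) (by
          intro m hm h4 h5
          obtain ⟨m, rfl⟩ : ∃ m', m = m' + 1 := ⟨m - 1, by omega⟩
          have := h3 m (by omega)
          simpa using this)
      simpa [h2] using this
    · exact ih

/-- A duplicate-free list of the elements of a finite set starting with a given one. -/
theorem exists_list {V : Type} (S : Finset V) {ρ : V} (hρ : ρ ∈ S) :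
    ∃ sl : List V, sl.Nodup ∧ (∀ x, x ∈ sl ↔ x ∈ S) ∧ sl.length = S.card ∧ sl[0]? = some ρ := by
  classical
  refine ⟨ρ :: (S.erase ρ).toList, ?_, ?_, ?_, ?_⟩
  · rw [List.nodup_cons]
    exact ⟨by simp, Finset.nodup_toList _⟩
  · intro x
    rw [List.mem_cons, Finset.mem_toList, Finset.mem_erase]
    constructor
    · rintro (rfl | h)
      · exact hρ
      · exact h.2
    · intro h
      by_cases hx : x = ρ
      · exact Or.inl hx
      · exact Or.inr ⟨hx, h⟩
  · rw [List.length_cons, Finset.length_toList, Finset.card_erase_of_mem hρ]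
    have := Finset.card_pos.2 ⟨ρ, hρ⟩
    omega
  · simp

theorem proof_PGCA (h : PROJ) : PGCA := by
  classical
  intro I hI hG
  obtain ⟨N, H, hH, a, b, P, hadj⟩ := hG
  obtain ⟨ρ⟩ := hH.connected.nonempty
  have hp : ∀ v, Pth H (P v).1.getVert (P v).1.length := fun v => pth_of_isPath _ (P v).2
  have htop : ∀ v, ∃ i, Top H ρ (P v).1.getVert (P v).1.length i := by
    intro v
    obtain ⟨i, h1, h2⟩ := h _ H hH _ _ (hp v).1 (hp v).2 ρ
    exact ⟨i, h1, h2⟩
  choose i hi using htop
  set top : Fin I.1 → Fin N := fun v => (P v).1.getVert (i v) with htopdef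
  set S : Finset (Fin N) := insert ρ (Finset.univ.image top) with hS
  have hρS : ρ ∈ S := Finset.mem_insert_self _ _
  have htS : ∀ v, top v ∈ S := fun v =>
    Finset.mem_insert_of_mem (Finset.mem_image_of_mem _ (Finset.mem_univ v))
  have hcard : S.card ≤ I.1 + 1 := by
    refine (Finset.card_insert_le _ _).trans ?_
    have h1 : (Finset.univ.image top).card ≤ (Finset.univ : Finset (Fin I.1)).card :=
      Finset.card_image_le
    rw [Finset.card_univ, Fintype.card_fin] at h1
    omega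
  obtain ⟨par, hpar⟩ := exists_par (T := H) ρ S hρS
  obtain ⟨sl, hnd, hmem, hlen, hsl0⟩ := exists_list S hρS
  have hidx : ∀ x ∈ S, sl.idxOf x < sl.length := fun x hx =>
    List.idxOf_lt_length_iff.2 ((hmem x).2 hx)
  have hget : ∀ x ∈ S, sl[sl.idxOf x]? = some x := by
    intro x hx
    rw [List.getElem?_eq_getElem (hidx x hx), List.getElem_idxOf]
  have hinj : ∀ x ∈ S, ∀ y ∈ S, sl.idxOf x = sl.idxOf y → x = y := by
    intro x hx y hy hxy
    have h1 := hget x hx
    rw [hxy, hget y hy] at h1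
    exact (Option.some.inj h1).symm
  have hidx0 : ∀ x ∈ S, x ≠ ρ → sl.idxOf x ≠ 0 := by
    intro x hx hne h0
    have h1 := hget x hx
    rw [h0, hsl0] at h1
    exact hne (Option.some.inj h1).symm
  have hpos : 0 < sl.length := by
    rw [hlen]
    exact Finset.card_pos.2 ⟨ρ, hρS⟩
  set pl : List ℕ := sl.map (fun s => if s = ρ then 0 else sl.idxOf (par s)) with hpl
  set ll : List ℕ := sl.map (fun s => level H ρ S s) with hll
  set q : Fin I.1 → List ℕ := fun v =>
    ((List.range ((P v).1.length + 1)).filter (fun j => decide ((P v).1.getVert j ∈ S))).map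
      (fun j => sl.idxOf ((P v).1.getVert j)) with hq
  have hplget : ∀ x ∈ S, x ≠ ρ → pl.getD (sl.idxOf x) 0 = sl.idxOf (par x) := by
    intro x hx hne
    rw [List.getD_eq_getElem?_getD, hpl, List.getElem?_map, hget x hx]
    simp [hne]
  have hllget : ∀ x ∈ S, ll.getD (sl.idxOf x) 0 = level H ρ S x := by
    intro x hx
    rw [List.getD_eq_getElem?_getD, hll, List.getElem?_map, hget x hx]
    simp
  have hqmem : ∀ v x, x ∈ q v ↔ ∃ j ≤ (P v).1.length, (P v).1.getVert j ∈ S ∧
      sl.idxOf ((P v).1.getVert j) = x := by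
    intro v x
    rw [hq]
    simp only [List.mem_map, List.mem_filter, List.mem_range, decide_eq_true_eq]
    constructor
    · rintro ⟨j, ⟨h1, h2⟩, h3⟩
      exact ⟨j, by omega, h2, h3⟩
    · rintro ⟨j, h1, h2, h3⟩
      exact ⟨j, ⟨by omega, h2⟩, h3⟩
  have hplen : pl.length = sl.length := by rw [hpl, List.length_map]
  have hinjp : ∀ v, ∀ j ≤ (P v).1.length, ∀ l ≤ (P v).1.length,
      (P v).1.getVert j = (P v).1.getVert l → j = l := by
    intro v j hj l hl hjl
    exact (P v).2.getVert_injOn hj hl hjl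
  refine ⟨pl, ll, List.ofFn q, ?_, ?_, ?_, ?_, ?_, ?_, ?_, ?_, ?_⟩
  · rw [hplen]
    exact hpos
  · rw [hplen, hlen]
    exact hcard
  · rw [hplen, hll, List.length_map]
  · rw [List.length_ofFn]
  · intro l hl
    rw [hll, List.mem_map] at hl
    obtain ⟨s, -, rfl⟩ := hl
    exact level_le.trans hcard
  · intro x hx
    rw [hplen]
    rw [hpl, List.mem_map] at hx
    obtain ⟨s, hs, rfl⟩ := hx
    have hs' := (hmem s).1 hs
    split_ifs with h1
    · exact hpos
    · exact hidx _ (hpar s hs' h1).1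
  · intro k hk hk0
    rw [hplen] at hk
    obtain ⟨x, hx⟩ : ∃ x, sl[k] = x := ⟨_, rfl⟩
    have hxS : x ∈ S := by
      rw [← hmem, ← hx]
      exact List.getElem_mem _
    have hkx : k = sl.idxOf x := by
      rw [← hx, hnd.idxOf_getElem]
    have hxρ : x ≠ ρ := by
      rintro rfl
      have h1 : sl[0]? = some x := hsl0
      rw [List.getElem?_eq_getElem hpos] at h1
      have h2 : sl[0] = sl[k] := by
        rw [hx]
        exact Option.some.inj h1
      have := (hnd.getElem_inj_iff).1 h2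
      omega
    rw [hkx, hplget x hxS hxρ, hllget _ (hpar x hxS hxρ).1, hllget x hxS]
    exact level_lt hH (hpar x hxS hxρ).1 (hpar x hxS hxρ).2.1 (hpar x hxS hxρ).2.2.1
  · intro q' hq'
    rw [List.mem_ofFn] at hq'
    obtain ⟨v, rfl⟩ := hq'
    refine ⟨?_, ?_, ?_, ?_⟩
    · apply List.ne_nil_of_mem (a := sl.idxOf (top v))
      rw [hqmem]
      exact ⟨i v, (hi v).1, htS v, rfl⟩
    · rw [hq]
      refine List.Nodup.map_on ?_ (List.nodup_range.filter _)
      intro j hj l hl hjl
      rw [List.mem_filter, List.mem_range, decide_eq_true_eq] at hj hl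
      exact hinjp v j (by omega) l (by omega) (hinj _ hj.2 _ hl.2 hjl)
    · intro x hx
      rw [hqmem] at hx
      obtain ⟨j, -, h2, rfl⟩ := hx
      rw [hplen]
      exact hidx _ h2
    · rw [hq]
      rw [List.isChain_map]
      apply filter_chain
      intro j l hj hl hjl h1 h2 h3
      simp only [List.getElem_range, List.length_range, decide_eq_true_eq, decide_eq_false_iff_not]
        at hj hl h1 h2 h3 ⊢
      rcases consec h hH hpar (hp v) (hi v) (htS v) hjl (by omega) h1 h2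
        (fun m hm1 hm2 => h3 m (by omega) hm1 hm2) with ⟨h4, h5⟩ | ⟨h4, h5⟩
      · left
        refine ⟨hidx0 _ h1 h4, ?_⟩
        rw [hplget _ h1 h4, h5]
      · right
        refine ⟨hidx0 _ h2 h4, ?_⟩
        rw [hplget _ h2 h4, h5]
  · intro v hv u huv
    have hu : u < I.1 := huv.trans hv
    have hQu : (List.ofFn q).getD u [] = q ⟨u, hu⟩ := by
      rw [List.getD_eq_getElem _ _ (by rw [List.length_ofFn]; exact hu), List.getElem_ofFn]
    have hQv : (List.ofFn q).getD v [] = q ⟨v, hv⟩ := by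
      rw [List.getD_eq_getElem _ _ (by rw [List.length_ofFn]; exact hv), List.getElem_ofFn]
    rw [hQu, hQv]
    have hne : (⟨u, hu⟩ : Fin I.1) ≠ ⟨v, hv⟩ := by
      intro h1
      have := congrArg Fin.val h1
      simp only at this
      omega
    have h1 : (u, v) ∈ I.2 ↔ (graphOf I).Adj ⟨u, hu⟩ ⟨v, hv⟩ := by
      unfold graphOf
      rw [SimpleGraph.fromRel_adj]
      constructor
      · intro h2
        exact ⟨hne, Or.inl h2⟩
      · rintro ⟨-, h2 | h2⟩
        · exact h2
        · have := (hI.2.1 _ h2).1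
          simp only at this
          omega
    rw [h1, hadj _ _ hne]
    constructor
    · rintro ⟨x, hx1, hx2⟩
      rw [SimpleGraph.Walk.mem_support_iff_exists_getVert] at hx1 hx2
      obtain ⟨j, rfl, hj⟩ := hx1
      obtain ⟨l, hl', hl⟩ := hx2
      rcases le_total (H.dist ρ (top ⟨u, hu⟩)) (H.dist ρ (top ⟨v, hv⟩)) with hle | hle
      · obtain ⟨m, hm, e⟩ := meet h hH (hp _) (hp _) (hi ⟨u, hu⟩) (hi ⟨v, hv⟩) hj hl hl'.symm hle
        refine ⟨sl.idxOf (top ⟨v, hv⟩), ?_, ?_⟩
        · rw [hqmem]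
          refine ⟨m, hm, ?_, ?_⟩
          · rw [← e]
            exact htS _
          · rw [← e]
        · rw [hqmem]
          exact ⟨i _, (hi _).1, htS _, rfl⟩
      · obtain ⟨m, hm, e⟩ := meet h hH (hp _) (hp _) (hi ⟨v, hv⟩) (hi ⟨u, hu⟩) hl hj hl' hle
        refine ⟨sl.idxOf (top ⟨u, hu⟩), ?_, ?_⟩
        · rw [hqmem]
          exact ⟨i _, (hi _).1, htS _, rfl⟩
        · rw [hqmem]
          refine ⟨m, hm, ?_, ?_⟩
          · rw [← e]
            exact htS _
          · rw [← e]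
    · rintro ⟨x, hx1, hx2⟩
      rw [hqmem] at hx1 hx2
      obtain ⟨j, -, h2, h3⟩ := hx1
      obtain ⟨l, -, h4, h5⟩ := hx2
      refine ⟨(P ⟨u, hu⟩).1.getVert j, SimpleGraph.Walk.getVert_mem_support _ _, ?_⟩
      rw [hinj _ h2 _ h4 (h3.trans h5.symm)]
      exact SimpleGraph.Walk.getVert_mem_support _ _

end Pool.Agent.W428.TP.PGCA
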